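import Pool.Agent.Run7.h670.MY.StmD
import Pool.Agent.Run7.h834.MY.CS

/-!
# Piece D_CS2 of project MY (helper670), by helper491: the plane case of Cauchy-Schwarz
-/

set_option autoImplicit false
set_option linter.all false

open MeasureTheory Set Filter
open scoped ENNReal RealInnerProductSpace

namespace Run7.h491.MY

open Pool.Agent.Run7.h670.MY

/-- the coordinates `(s, t) ↦ s a + t b` -/
def J2 (a b : V 2) (z : ℝ × ℝ) : V 2 := z.1 • a + z.2 • b

theorem J2_mp (a b : V 2) (h : Orthonormal ℝ ![a, b]) :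
    MeasurePreserving (J2 a b) volume volume := by
  have hcard : Fintype.card (Fin 2) = Module.finrank ℝ (V 2) := by
    rw [finrank_euclideanSpace]
  let B0 : Module.Basis (Fin 2) ℝ (V 2) := basisOfOrthonormalOfCardEqFinrank h hcard
  have hB0 : ⇑B0 = ![a, b] := coe_basisOfOrthonormalOfCardEqFinrank h hcard
  have hB0' : Orthonormal ℝ B0 := by rw [hB0]; exact h
  let B : OrthonormalBasis (Fin 2) ℝ (V 2) := B0.toOrthonormalBasis hB0'
  have hB : ⇑B = ![a, b] := by
    rw [Module.Basis.coe_toOrthonormalBasis, hB0]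
  have h1 : MeasurePreserving (MeasurableEquiv.finTwoArrow (α := ℝ)).symm volume volume :=
    (volume_preserving_finTwoArrow ℝ).symm
  have h3 := PiLp.volume_preserving_toLp (Fin 2)
  have h4 := B.measurePreserving_repr_symm
  have h5 := h4.comp (h3.comp h1)
  have h6 : J2 a b = (B.repr.symm : EuclideanSpace ℝ (Fin 2) → V 2) ∘
      ((WithLp.toLp 2 : (Fin 2 → ℝ) → EuclideanSpace ℝ (Fin 2)) ∘
        (MeasurableEquiv.finTwoArrow (α := ℝ)).symm) := by
    funext z
    simp only [Function.comp_apply]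
    rw [← OrthonormalBasis.sum_repr_symm, Fin.sum_univ_two, hB]
    rfl
  rw [h6]
  exact h5

theorem inner_J2 (a b : V 2) (h : Orthonormal ℝ ![a, b]) (z : ℝ × ℝ) :
    ⟪a, J2 a b z⟫ = z.1 ∧ ⟪b, J2 a b z⟫ = z.2 := by
  have n0 : ⟪a, a⟫ = 1 := by
    have := h.1 0
    rw [real_inner_self_eq_norm_sq]
    have h1 : ‖a‖ = 1 := this
    rw [h1]; norm_num
  have n1 : ⟪b, b⟫ = 1 := by
    have := h.1 1
    rw [real_inner_self_eq_norm_sq]
    have h1 : ‖b‖ = 1 := this
    rw [h1]; norm_num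
  have i01 : ⟪a, b⟫ = 0 := h.2 (i := 0) (j := 1) (by decide)
  have i10 : ⟪b, a⟫ = 0 := h.2 (i := 1) (j := 0) (by decide)
  constructor
  · rw [J2, inner_add_right, inner_smul_right, inner_smul_right, n0, i01]
    ring
  · rw [J2, inner_add_right, inner_smul_right, inner_smul_right, n1, i10]
    ring

theorem t_D_CS2 : D_CS2 := by
  intro f g a b hf hg h
  have hJ := J2_mp a b h
  have hgx : Measurable fun x : V 2 => g ⟪a, x⟫ ⟪b, x⟫ := by
    have h1 : Measurable fun x : V 2 => (⟪a, x⟫, ⟪b, x⟫) :=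
      (Measurable.const_inner measurable_id).prodMk (Measurable.const_inner measurable_id)
    exact hg.comp h1
  have hl : ∫⁻ x, f x * g ⟪a, x⟫ ⟪b, x⟫ = ∫⁻ z : ℝ × ℝ, f (J2 a b z) * g z.1 z.2 := by
    have h0 : ∫⁻ z, f (J2 a b z) * g ⟪a, J2 a b z⟫ ⟪b, J2 a b z⟫ =
        ∫⁻ x, f x * g ⟪a, x⟫ ⟪b, x⟫ := hJ.lintegral_comp (hf.mul hgx)
    rw [← h0]
    refine lintegral_congr fun z => ?_
    have h1 := inner_J2 a b h z
    rw [h1.1, h1.2]
  have hr : ∫⁻ x, f x ^ 2 = ∫⁻ z : ℝ × ℝ, f (J2 a b z) ^ 2 :=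
    (hJ.lintegral_comp (hf.pow_const 2)).symm
  rw [hl, hr]
  exact Run7.h834.MY.cs_sq volume (fun z => f (J2 a b z)) (fun z => g z.1 z.2)
    (hf.comp hJ.measurable) hg

end Run7.h491.MY
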