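import Pool.Agent.Run7.h670.MY.StmD

/-!
# Piece D_RED of project MY (helper670), by helper491: projection to a space of dimension three
-/

set_option autoImplicit false
set_option linter.all false

open MeasureTheory Set Filter
open scoped ENNReal RealInnerProductSpace

namespace Run7.h491.MY

open Pool.Agent.Run7.h670.MY

theorem t_D_RED (hstep : D_STEP) : D_RED := by
  intro d hd
  induction d, hd using Nat.le_induction with
  | base =>
    intro μ hμ
    refine ⟨LinearIsometry.id, ?_⟩
    have h1 : ContinuousLinearMap.adjoint
        (LinearIsometry.id : V 3 →ₗᵢ[ℝ] V 3).toContinuousLinearMap =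
        ContinuousLinearMap.id ℝ (V 3) := by
      rw [LinearIsometry.id_toContinuousLinearMap]
      exact ContinuousLinearMap.adjoint_id
    rw [h1]
    have h2 : μ.map (ContinuousLinearMap.id ℝ (V 3)) = μ := Measure.map_id
    rw [h2]
    norm_num
  | succ d hd ih =>
    intro μ hμ
    obtain ⟨S₁, h₁⟩ := hstep d hd μ hμ
    have hm₁ : Measurable (ContinuousLinearMap.adjoint S₁.toContinuousLinearMap) :=
      (ContinuousLinearMap.adjoint S₁.toContinuousLinearMap).continuous.measurable
    have hfin : IsFiniteMeasure
        (μ.map (ContinuousLinearMap.adjoint S₁.toContinuousLinearMap)) :=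
      Measure.isFiniteMeasure_map μ _
    obtain ⟨S₂, h₂⟩ := ih (μ.map (ContinuousLinearMap.adjoint S₁.toContinuousLinearMap)) hfin
    have hm₂ : Measurable (ContinuousLinearMap.adjoint S₂.toContinuousLinearMap) :=
      (ContinuousLinearMap.adjoint S₂.toContinuousLinearMap).continuous.measurable
    refine ⟨S₁.comp S₂, ?_⟩
    have h3 : ContinuousLinearMap.adjoint (S₁.comp S₂).toContinuousLinearMap =
        (ContinuousLinearMap.adjoint S₂.toContinuousLinearMap).comp
          (ContinuousLinearMap.adjoint S₁.toContinuousLinearMap) := by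
      rw [← ContinuousLinearMap.adjoint_comp]
      rfl
    have h4 : μ.map (ContinuousLinearMap.adjoint (S₁.comp S₂).toContinuousLinearMap) =
        (μ.map (ContinuousLinearMap.adjoint S₁.toContinuousLinearMap)).map
          (ContinuousLinearMap.adjoint S₂.toContinuousLinearMap) := by
      rw [h3, Measure.map_map hm₂ hm₁]
      rfl
    rw [h4]
    refine h₂.trans ((mul_le_mul_right h₁ _).trans (le_of_eq ?_))
    have hd' : (3 : ℝ) ≤ d := by exact_mod_cast hd
    rw [← mul_assoc, ← ENNReal.ofReal_mul (by linarith)]
    congr 2
    push_cast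
    have : (d : ℝ) - 2 ≠ 0 := by intro h; linarith
    field_simp
    ring

end Run7.h491.MY
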