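import Pool.Agent.Run7.h670.MY.StmD

/-!
# Piece D_INT of project MY (helper670), by helper491: the integral of the truncated weight
-/

set_option autoImplicit false
set_option linter.all false

open MeasureTheory Set Filter
open scoped ENNReal Topology

namespace Run7.h491.MY

open Pool.Agent.Run7.h670.MY

/-- the radial profile of the weight -/
noncomputable def hrad (c r : ℝ) : ℝ := c ^ 2 / (c ^ 2 + r ^ 2)

/-- a primitive of the radial integrand -/
noncomputable def prim (c r : ℝ) : ℝ :=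
  1 / 2 * (-(c ^ 8 / 3) * ((c ^ 2 + r ^ 2) ^ 3)⁻¹ - 31 / 8 * c ^ 6 * ((c ^ 2 + r ^ 2) ^ 2)⁻¹ -
    897 / 64 * c ^ 4 * (c ^ 2 + r ^ 2)⁻¹ - 31 / 8 * c ^ 2 * Real.log (c ^ 2 + r ^ 2) +
    (c ^ 2 + r ^ 2) / 4)

theorem prim_deriv (c : ℝ) (hc : 0 < c) (r : ℝ) :
    HasDerivAt (prim c) (r * ((hrad c r - 1 / 8) * (hrad c r + 4)) ^ 2) r := by
  have hpos : 0 < c ^ 2 + r ^ 2 := by positivity
  have h3 := hpos.ne'
  have h1 : HasDerivAt (fun r : ℝ => c ^ 2 + r ^ 2) (2 * r) r := by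
    have := (hasDerivAt_pow 2 r).const_add (c ^ 2)
    simpa using this
  have ha := ((h1.pow 3).inv (pow_ne_zero 3 h3)).const_mul (-(c ^ 8 / 3))
  have hb := ((h1.pow 2).inv (pow_ne_zero 2 h3)).const_mul (31 / 8 * c ^ 6)
  have hc' := (h1.inv h3).const_mul (897 / 64 * c ^ 4)
  have hd := (h1.log h3).const_mul (31 / 8 * c ^ 2)
  have he := h1.div_const 4
  have h := ((((ha.sub hb).sub hc').sub hd).add he).const_mul (1 / 2)
  refine h.congr_deriv ?_
  simp only [Nat.cast_ofNat, Pi.pow_apply, hrad]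
  field_simp
  ring

theorem prim_sub (c : ℝ) (hc : 0 < c) : prim c (√7 * c) - prim c 0 =
    c ^ 2 / 2 * (511 / 1536 + 31 * 63 / 512 + 897 * 7 / 512 - 31 / 8 * Real.log 8 + 7 / 4) := by
  have h7 : (√7 * c) ^ 2 = 7 * c ^ 2 := by
    rw [mul_pow, Real.sq_sqrt (by norm_num)]
  have h8 : c ^ 2 + 7 * c ^ 2 = 8 * c ^ 2 := by ring
  have h0 : c ^ 2 + (0 : ℝ) ^ 2 = c ^ 2 := by ring
  have hc2 : c ^ 2 ≠ 0 := by positivity
  simp only [prim]
  rw [h7, h8, h0, Real.log_mul (by norm_num) hc2]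
  field_simp
  ring

theorem radial (c : ℝ) (hc : 0 < c) :
    ∫⁻ r in Ioi (0 : ℝ), ENNReal.ofReal
      (r * (max 0 ((hrad c r - 1 / 8) * (hrad c r + 4))) ^ 2) ≤
      ENNReal.ofReal (c ^ 2 / 2 *
        (511 / 1536 + 31 * 63 / 512 + 897 * 7 / 512 - 31 / 8 * Real.log 8 + 7 / 4)) := by
  have hR : 0 < √7 * c := by positivity
  have hR2 : (√7 * c) ^ 2 = 7 * c ^ 2 := by
    rw [mul_pow, Real.sq_sqrt (by norm_num)]
  rw [← Ioc_union_Ioi_eq_Ioi hR.le,
    lintegral_union measurableSet_Ioi (Ioc_disjoint_Ioi le_rfl)]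
  have hz : ∫⁻ r in Ioi (√7 * c), ENNReal.ofReal
      (r * (max 0 ((hrad c r - 1 / 8) * (hrad c r + 4))) ^ 2) = 0 := by
    have h1 : ∫⁻ r in Ioi (√7 * c), ENNReal.ofReal
        (r * (max 0 ((hrad c r - 1 / 8) * (hrad c r + 4))) ^ 2) =
        ∫⁻ r in Ioi (√7 * c), 0 := by
      apply setLIntegral_congr_fun measurableSet_Ioi
      intro r hr
      have h2 : √7 * c < r := hr
      have h3 : 7 * c ^ 2 < r ^ 2 := by
        rw [← hR2]
        exact pow_lt_pow_left₀ h2 hR.le (by norm_num)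
      have h4 : 0 < c ^ 2 + r ^ 2 := by positivity
      have h5 : hrad c r ≤ 1 / 8 := by
        rw [hrad, div_le_iff₀ h4]
        linarith
      have h6 : 0 ≤ hrad c r := by
        rw [hrad]
        positivity
      have h7 : (hrad c r - 1 / 8) * (hrad c r + 4) ≤ 0 :=
        mul_nonpos_of_nonpos_of_nonneg (by linarith) (by linarith)
      show ENNReal.ofReal _ = 0
      rw [max_eq_left h7]
      simp
    rw [h1]
    simp
  rw [hz, add_zero]
  have hcont : Continuous fun r : ℝ => r * ((hrad c r - 1 / 8) * (hrad c r + 4)) ^ 2 := by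
    have h1 : Continuous fun r : ℝ => hrad c r := by
      unfold hrad
      have h2 : ∀ r : ℝ, c ^ 2 + r ^ 2 ≠ 0 := fun r => by positivity
      exact continuous_const.div (by fun_prop) h2
    fun_prop
  have hle : ∫⁻ r in Ioc 0 (√7 * c), ENNReal.ofReal
      (r * (max 0 ((hrad c r - 1 / 8) * (hrad c r + 4))) ^ 2) ≤
      ∫⁻ r in Ioc 0 (√7 * c), ENNReal.ofReal
        (r * ((hrad c r - 1 / 8) * (hrad c r + 4)) ^ 2) := by
    apply setLIntegral_mono' measurableSet_Ioc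
    intro r hr
    apply ENNReal.ofReal_le_ofReal
    apply mul_le_mul_of_nonneg_left _ hr.1.le
    rcases le_total 0 ((hrad c r - 1 / 8) * (hrad c r + 4)) with h | h
    · rw [max_eq_right h]
    · rw [max_eq_left h, zero_pow (by norm_num)]
      exact sq_nonneg _
  refine hle.trans (le_of_eq ?_)
  have hint : IntegrableOn (fun r : ℝ => r * ((hrad c r - 1 / 8) * (hrad c r + 4)) ^ 2)
      (Ioc 0 (√7 * c)) := hcont.integrableOn_Ioc
  have hnn : ∀ r ∈ Ioc 0 (√7 * c), 0 ≤ r * ((hrad c r - 1 / 8) * (hrad c r + 4)) ^ 2 := by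
    intro r hr
    have := hr.1.le
    positivity
  rw [← ofReal_integral_eq_lintegral_ofReal hint
    ((ae_restrict_iff' measurableSet_Ioc).2 (Eventually.of_forall hnn)),
    ← intervalIntegral.integral_of_le hR.le,
    intervalIntegral.integral_eq_sub_of_hasDerivAt (f := prim c)
      (fun r _ => prim_deriv c hc r) (hcont.intervalIntegrable _ _), prim_sub c hc]

theorem t_D_INT : D_INT := by
  intro p q c hc
  -- translation
  have h1 := lintegral_sub_right_eq_self (μ := (volume : Measure (ℝ × ℝ)))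
    (fun z : ℝ × ℝ => ENNReal.ofReal (max 0 ((c ^ 2 / (c ^ 2 + z.1 ^ 2 + z.2 ^ 2) - 1 / 8) *
      (c ^ 2 / (c ^ 2 + z.1 ^ 2 + z.2 ^ 2) + 4))) ^ 2) (p, q)
  have h2 : ∀ z : ℝ × ℝ, ENNReal.ofReal (gg p q c z.1 z.2) ^ 2 =
      ENNReal.ofReal (max 0 ((c ^ 2 / (c ^ 2 + (z - (p, q)).1 ^ 2 + (z - (p, q)).2 ^ 2) - 1 / 8) *
      (c ^ 2 / (c ^ 2 + (z - (p, q)).1 ^ 2 + (z - (p, q)).2 ^ 2) + 4))) ^ 2 :=
    fun z => rfl
  rw [lintegral_congr h2, h1, ← lintegral_comp_polarCoord_symm]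
  have h3 : ∫⁻ z in polarCoord.target, ENNReal.ofReal z.1 •
      ENNReal.ofReal (max 0 ((c ^ 2 / (c ^ 2 + (polarCoord.symm z).1 ^ 2 +
        (polarCoord.symm z).2 ^ 2) - 1 / 8) *
      (c ^ 2 / (c ^ 2 + (polarCoord.symm z).1 ^ 2 + (polarCoord.symm z).2 ^ 2) + 4))) ^ 2 =
      ∫⁻ z in polarCoord.target, ENNReal.ofReal
        (z.1 * (max 0 ((hrad c z.1 - 1 / 8) * (hrad c z.1 + 4))) ^ 2) := by
    apply setLIntegral_congr_fun polarCoord.open_target.measurableSet
    intro z hz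
    have hz1 : 0 < z.1 := by
      rw [polarCoord_target] at hz
      exact hz.1
    have h4 : c ^ 2 + (polarCoord.symm z).1 ^ 2 + (polarCoord.symm z).2 ^ 2 = c ^ 2 + z.1 ^ 2 := by
      rw [polarCoord_symm_apply]
      simp only
      have := Real.cos_sq_add_sin_sq z.2
      linear_combination z.1 ^ 2 * this
    show ENNReal.ofReal z.1 • ENNReal.ofReal _ ^ 2 = _
    rw [h4, smul_eq_mul, ← ENNReal.ofReal_pow (le_max_left _ _), ← ENNReal.ofReal_mul hz1.le]
    rfl
  rw [h3, polarCoord_target, Measure.volume_eq_prod, ← Measure.prod_restrict]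
  have hm : Measurable fun r : ℝ => ENNReal.ofReal
      (r * (max 0 ((hrad c r - 1 / 8) * (hrad c r + 4))) ^ 2) := by
    apply Measurable.ennreal_ofReal
    have hh1 : Measurable fun r : ℝ => hrad c r :=
      measurable_const.div (measurable_const.add (measurable_id.pow_const 2))
    exact measurable_id.mul
      ((measurable_const.max ((hh1.sub_const _).mul (hh1.add_const _))).pow_const 2)
  have h5 := lintegral_prod_mul (μ := volume.restrict (Ioi (0 : ℝ)))
    (ν := volume.restrict (Ioo (-Real.pi) Real.pi)) hm.aemeasurable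
    (measurable_const (a := (1 : ℝ≥0∞))).aemeasurable
  simp only [mul_one] at h5
  rw [h5, lintegral_one, Measure.restrict_apply_univ, Real.volume_Ioo]
  refine (mul_le_mul_left (radial c hc) _).trans ?_
  have hlog8 : Real.log 8 = 3 * Real.log 2 := by
    rw [show (8 : ℝ) = 2 ^ 3 by norm_num, Real.log_pow]
    norm_num
  have hl1 := Real.log_two_gt_d9
  have hl2 := Real.log_two_lt_d9
  have hpi := Real.pi_lt_d4
  have hpi0 := Real.pi_pos
  have hA : 0 ≤ 511 / 1536 + 31 * 63 / 512 + 897 * 7 / 512 - 31 / 8 * Real.log 8 + 7 / 4 := by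
    rw [hlog8]
    norm_num
    linarith
  have hB : 511 / 1536 + 31 * 63 / 512 + 897 * 7 / 512 - 31 / 8 * Real.log 8 + 7 / 4 ≤
      (10.11 : ℝ) := by
    rw [hlog8]
    norm_num
    linarith
  rw [← ENNReal.ofReal_mul (by positivity)]
  apply ENNReal.ofReal_le_ofReal
  have h6 : Real.pi - -Real.pi = 2 * Real.pi := by ring
  rw [h6]
  have h7 : (511 / 1536 + 31 * 63 / 512 + 897 * 7 / 512 - 31 / 8 * Real.log 8 + 7 / 4) * Real.pi ≤
      255 / 8 := by
    calc (511 / 1536 + 31 * 63 / 512 + 897 * 7 / 512 - 31 / 8 * Real.log 8 + 7 / 4) * Real.pi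
        ≤ 10.11 * 3.1416 := mul_le_mul hB hpi.le hpi0.le (by norm_num)
      _ ≤ 255 / 8 := by norm_num
  nlinarith [mul_le_mul_of_nonneg_left h7 (sq_nonneg c)]

end Run7.h491.MY
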